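import Pool.Agent.Helper35.EAM.Spec2
import Pool.Graph.R_seed8.H47R2.EA.GIBBSE

/-!
# EAM2, part CPT: compactness, two Gibbs states on a set of sites
-/

set_option autoImplicit false

open MeasureTheory Filter Topology
open scoped ENNReal BoundedContinuousFunction

namespace Helper74.EAM2

open Pool.Agent.Helper35.EAM Pool.Agent.Helper35.EAM2 Pool.H47EA Pool.H47EA.GIBBSE

variable {d : ℕ}

/-- limits of finite volume states along an ultrafilter -/
theorem limit_state (β : ℝ) (J : Coupling d) (L : ℕ → Finset (Site d)) (ω : ℕ → Site d → Bool)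
    (U : Ultrafilter ℕ) : ∃ π : Measure (Site d → Bool), IsProbabilityMeasure π ∧
    (∀ f : (Site d → Bool) → ℝ, Continuous f →
      Tendsto (fun n => gE β J (L n) (ω n) f) U (𝓝 (∫ σ, f σ ∂π))) ∧
    ∀ L' : Finset (Site d), (∀ᶠ n in (U : Filter ℕ), L' ⊆ L n) →
      ∀ A : Set (Site d → Bool), MeasurableSet A →
      (π A).toReal = ∫ σ, gE β J L' σ (A.indicator fun _ => (1 : ℝ)) ∂π := by
  let P : ℕ → ProbabilityMeasure (Site d → Bool) := fun n =>
    ⟨KK β J (L n) (Measure.dirac (ω n)), prob_KK β J (L n) _⟩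
  obtain ⟨π, -, hπ⟩ := (isCompact_univ (X := ProbabilityMeasure (Site d → Bool))).ultrafilter_le_nhds
    (U.map P) (by simp)
  have hlim : Tendsto P U (𝓝 π) := hπ
  have hconv : ∀ f : (Site d → Bool) → ℝ, Continuous f →
      Tendsto (fun n => gE β J (L n) (ω n) f) U (𝓝 (∫ σ, f σ ∂(π : Measure (Site d → Bool)))) := by
    intro f hf
    let F : (Site d → Bool) →ᵇ ℝ := BoundedContinuousFunction.mkOfCompact ⟨f, hf⟩
    have h1 := (ProbabilityMeasure.tendsto_iff_forall_integral_tendsto.mp hlim) F
    refine h1.congr fun n => ?_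
    exact integral_KK_dirac β J (L n) (ω n) f hf.measurable ‖F‖ fun x => F.norm_coe_le_norm x
  refine ⟨π, inferInstance, hconv, ?_⟩
  intro L' hL' A hA
  have hinv : ∀ f : (Site d → Bool) → ℝ, Continuous f →
      ∫ σ, gE β J L' σ f ∂(π : Measure (Site d → Bool)) =
        ∫ σ, f σ ∂(π : Measure (Site d → Bool)) := by
    intro f hf
    have h1 := hconv f hf
    have h2 := hconv (fun σ => gE β J L' σ f) (continuous_gE β J L' f hf)
    refine tendsto_nhds_unique h2 (h1.congr' ?_)
    filter_upwards [hL'] with n hn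
    exact (t_BASIC d β J (L n) (ω n)).2.2.2.2.2.1 L' hn f
  have hK : KK β J L' (π : Measure (Site d → Bool)) = (π : Measure (Site d → Bool)) := by
    have := prob_KK β J L' (π : Measure (Site d → Bool))
    haveI : TopologicalSpace.MetrizableSpace (Site d → Bool) :=
      TopologicalSpace.metrizableSpace_of_t3_secondCountable _
    letI : MetricSpace (Site d → Bool) := TopologicalSpace.metrizableSpaceMetric _
    apply ext_of_forall_integral_eq_of_IsFiniteMeasure
    intro f
    rw [integral_KK β J L' _ f f.continuous.measurable ‖f‖ fun x => f.norm_coe_le_norm x]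
    exact hinv f f.continuous
  have hind : Measurable (A.indicator fun _ => (1 : ℝ)) := measurable_const.indicator hA
  have h1 := integral_KK β J L' (π : Measure (Site d → Bool))
    (A.indicator fun _ => (1 : ℝ)) hind 1 (by
      intro x
      by_cases hx : x ∈ A
      · simp [hx]
      · simp [hx])
  rw [← h1, hK, integral_indicator hA]
  simp [Measure.real]

theorem continuous_ind (x : Site d) : Continuous (ind x) := by
  have : (ind x : (Site d → Bool) → ℝ) = (fun b : Bool => if b then (1 : ℝ) else 0) ∘ fun σ => σ x := rfl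
  rw [this]
  exact continuous_of_discreteTopology.comp (continuous_apply x)

/-- frozen spins -/
theorem limit_frozen (β : ℝ) (J : Coupling d) (L : ℕ → Finset (Site d)) (ω : ℕ → Site d → Bool)
    (U : Ultrafilter ℕ) (π : Measure (Site d → Bool)) [IsProbabilityMeasure π]
    (hconv : ∀ f : (Site d → Bool) → ℝ, Continuous f →
      Tendsto (fun n => gE β J (L n) (ω n) f) U (𝓝 (∫ σ, f σ ∂π)))
    (S : Set (Site d)) (ζ : Site d → Bool)
    (h : ∀ y, y ∉ S → ∀ᶠ n in (U : Filter ℕ), y ∉ L n ∧ ω n y = ζ y) :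
    ∀ᵐ σ ∂π, ∀ y, y ∉ S → σ y = ζ y := by
  rw [ae_all_iff]
  intro y
  by_cases hy : y ∈ S
  · exact ae_of_all _ fun σ h' => absurd hy h'
  · let f : (Site d → Bool) → ℝ := (fun b : Bool => if b = ζ y then (0 : ℝ) else 1) ∘ fun σ => σ y
    have hf : Continuous f := continuous_of_discreteTopology.comp (continuous_apply y)
    have h1 := hconv f hf
    have h2 : Tendsto (fun n => gE β J (L n) (ω n) f) U (𝓝 0) := by
      refine tendsto_const_nhds.congr' ?_
      filter_upwards [h y hy] with n hn
      have h3 : gE β J (L n) (ω n) f = gE β J (L n) (ω n) (fun _ => (0 : ℝ)) := by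
        refine Basic.gE_congr β J (L n) (ω n) f _ fun η => ?_
        show (if glue (L n) η (ω n) y = ζ y then (0 : ℝ) else 1) = 0
        rw [Basic.glue_not_mem η (ω n) hn.1, if_pos hn.2]
      rw [h3, Basic.gE_const]
    have h4 := tendsto_nhds_unique h1 h2
    have hf0 : ∀ σ, 0 ≤ f σ := by
      intro σ
      show 0 ≤ (if σ y = ζ y then (0 : ℝ) else 1)
      split <;> norm_num
    have hint : Integrable f π := by
      refine Integrable.of_bound hf.measurable.aestronglyMeasurable 1 (ae_of_all _ fun σ => ?_)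
      show ‖(if σ y = ζ y then (0 : ℝ) else 1)‖ ≤ 1
      split <;> simp
    rw [integral_eq_zero_iff_of_nonneg hf0 hint] at h4
    filter_upwards [h4] with σ hσ _
    by_contra hne
    have : f σ = 1 := by
      show (if σ y = ζ y then (0 : ℝ) else 1) = 1
      rw [if_neg hne]
    rw [this] at hσ
    exact one_ne_zero hσ

theorem t_CPT : S_CPT := by
  classical
  intro d β J x a ha hinfl
  have hex : ∀ n : ℕ, ∃ (L : Finset (Site d)) (ω ω' : Site d → Bool), x ∈ L ∧
      (∀ y, y ∉ L → dist1 x y < n + 1 → ω y = ω' y) ∧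
      a / 2 < |gE β J L ω (ind x) - gE β J L ω' (ind x)| := by
    intro n
    have h1 := hinfl (n + 1) (by omega)
    unfold Pool.Agent.Helper79K9.FS.infl at h1
    have hne : (Pool.Agent.Helper79K9.FS.inflSet β J (n + 1) x).Nonempty := by
      by_contra hcon
      rw [Set.not_nonempty_iff_eq_empty] at hcon
      rw [hcon, Real.sSup_empty] at h1
      linarith
    obtain ⟨t, ⟨L, ω, ω', hL, hy, ht⟩, hlt⟩ := exists_lt_of_lt_csSup hne (by linarith : a / 2 < _)
    exact ⟨L, ω, ω', hL, hy, by rw [← ht]; exact hlt⟩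
  choose L ω ω' hxL hagree hgap using hex
  let U : Ultrafilter ℕ := Ultrafilter.of atTop
  have hU : (U : Filter ℕ) ≤ atTop := Ultrafilter.of_le _
  obtain ⟨π, hπp, hπc, hπg⟩ := limit_state β J L ω U
  obtain ⟨π', hπp', hπc', hπg'⟩ := limit_state β J L ω' U
  let S : Set (Site d) := {y | ∀ᶠ n in (U : Filter ℕ), y ∈ L n}
  let ζ : Site d → Bool := fun y => if ∀ᶠ n in (U : Filter ℕ), ω n y = true then true else false
  have hnot : ∀ y, y ∉ S → ∀ᶠ n in (U : Filter ℕ), y ∉ L n := by
    intro y hy
    exact Ultrafilter.eventually_not.2 hy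
  have hζ : ∀ y, ∀ᶠ n in (U : Filter ℕ), ω n y = ζ y := by
    intro y
    by_cases h : ∀ᶠ n in (U : Filter ℕ), ω n y = true
    · have : ζ y = true := if_pos h
      rw [this]; exact h
    · have : ζ y = false := if_neg h
      rw [this]
      filter_upwards [Ultrafilter.eventually_not.2 h] with n hn
      simpa using hn
  have hω' : ∀ y, y ∉ S → ∀ᶠ n in (U : Filter ℕ), y ∉ L n ∧ ω' n y = ζ y := by
    intro y hy
    have h3 : ∀ᶠ n in (U : Filter ℕ), dist1 x y < n + 1 := by
      refine hU ?_
      filter_upwards [eventually_ge_atTop (dist1 x y)] with n hn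
      omega
    filter_upwards [hnot y hy, hζ y, h3] with n h4 h5 h6
    exact ⟨h4, by rw [← hagree n y h4 h6, h5]⟩
  refine ⟨S, ζ, π, π', ?_, ⟨hπp, ?_, ?_⟩, ⟨hπp', ?_, ?_⟩, ?_⟩
  · exact Eventually.of_forall hxL
  · refine limit_frozen β J L ω U π hπc S ζ fun y hy => ?_
    filter_upwards [hnot y hy, hζ y] with n h4 h5
    exact ⟨h4, h5⟩
  · intro L' hL'
    refine hπg L' ?_
    have : ∀ᶠ n in (U : Filter ℕ), ∀ y ∈ L', y ∈ L n := (Finset.eventually_all L').2 hL'
    filter_upwards [this] with n hn y hy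
    exact hn y hy
  · exact limit_frozen β J L ω' U π' hπc' S ζ hω'
  · intro L' hL'
    refine hπg' L' ?_
    have : ∀ᶠ n in (U : Filter ℕ), ∀ y ∈ L', y ∈ L n := (Finset.eventually_all L').2 hL'
    filter_upwards [this] with n hn y hy
    exact hn y hy
  · intro heq
    have h1 := hπc (ind x) (continuous_ind x)
    have h2 := hπc' (ind x) (continuous_ind x)
    rw [← heq] at h2
    have h3 := (h1.sub h2).abs
    rw [sub_self, abs_zero] at h3
    have h4 : ∀ᶠ n in (U : Filter ℕ), |gE β J (L n) (ω n) (ind x) - gE β J (L n) (ω' n) (ind x)| < a / 2 :=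
      h3.eventually (gt_mem_nhds (by linarith))
    obtain ⟨n, hn⟩ := h4.exists
    exact absurd hn (not_lt.2 (hgap n).le)

end Helper74.EAM2
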