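import Pool.Agent.Helper35.EAM.Spec3
import Pool.Agent.Helper74.EAM.CPT

/-!
# EAM3, part CPTH: compactness, with frozen spins in three consecutive hyperplanes
-/

set_option autoImplicit false

open MeasureTheory Filter Topology
open scoped ENNReal

namespace Helper74.EAM3

open Pool.Agent.Helper35.EAM Pool.Agent.Helper35.EAM2 Pool.Agent.Helper35.EAM3 Pool.H47EA
  Pool.H47EA.GIBBSE Helper74.EAM2

variable {d : ℕ}

/-- two volumes which are not adjacent do not see each other -/
theorem decouple (β : ℝ) (J : Coupling d) (L B : Finset (Site d)) (ω : Site d → Bool) (x : Site d)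
    (hx : x ∈ L) (h : ∀ u ∈ L, ∀ y ∈ B, ¬ (lat d).Adj u y) :
    gE β J (L ∪ B) ω (ind x) = gE β J L ω (ind x) := by
  classical
  rw [(t_BASIC d β J (L ∪ B) ω).2.2.2.2.2.1 L Finset.subset_union_left (ind x)]
  have h1 : gE β J (L ∪ B) ω (fun τ => gE β J L τ (ind x)) =
      gE β J (L ∪ B) ω (fun _ => gE β J L ω (ind x)) := by
    refine Basic.gE_congr β J (L ∪ B) ω _ _ fun η => ?_
    refine Basic.gE_local β J L _ _ (ind x) ?_ ?_
    · rintro y hy ⟨u, hu, hadj⟩
      have hyB : y ∉ B := fun hB => h u hu y hB hadj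
      exact Basic.glue_not_mem η ω (by simp [hy, hyB])
    · intro η'
      unfold ind
      rw [Basic.glue_mem _ _ hx, Basic.glue_mem _ _ hx]
  rw [h1, Basic.gE_const]

/-- the sites of a cube at distance at least two from a hyperplane -/
noncomputable def far (c : Fin d) (x : Site d) (n : ℕ) : Finset (Site d) := by
  classical
  exact (Fintype.piFinset fun i => Finset.Icc (x i - (n : ℤ)) (x i + n)).filter
    fun y => 2 ≤ |y c - x c|

theorem mem_far (c : Fin d) (x y : Site d) (n : ℕ) :
    y ∈ far c x n ↔ (∀ i, |y i - x i| ≤ n) ∧ 2 ≤ |y c - x c| := by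
  classical
  unfold far
  rw [Finset.mem_filter, Fintype.mem_piFinset]
  refine and_congr_left fun _ => forall_congr' fun i => ?_
  rw [Finset.mem_Icc, abs_le]
  constructor
  · rintro ⟨h1, h2⟩; constructor <;> linarith
  · rintro ⟨h1, h2⟩; constructor <;> linarith

theorem not_adj (c : Fin d) (x u y : Site d) (hu : u c = x c) (hy : 2 ≤ |y c - x c|) :
    ¬ (lat d).Adj u y := by
  intro h
  have h1 : dist1 u y = 1 := h
  have h2 : (u c - y c).natAbs ≤ dist1 u y := by
    unfold dist1
    exact Finset.single_le_sum (f := fun i => (u i - y i).natAbs) (fun _ _ => Nat.zero_le _)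
      (Finset.mem_univ c)
  rw [h1, hu] at h2
  have h3 : |y c - x c| = ((x c - y c).natAbs : ℤ) := by
    rw [Int.natCast_natAbs, abs_sub_comm]
  rw [h3] at hy
  have : (2 : ℤ) ≤ 1 := hy.trans (by exact_mod_cast h2)
  norm_num at this

theorem t_CPTH : S_CPTH := by
  classical
  intro d c β J x a ha hinfl
  have hex : ∀ n : ℕ, ∃ (L : Finset (Site d)) (ω ω' : Site d → Bool), x ∈ L ∧
      (∀ y ∈ L, y c = x c) ∧ (∀ y, y ∉ L → dist1 x y < n + 1 → ω y = ω' y) ∧
      a / 2 < |gE β J L ω (ind x) - gE β J L ω' (ind x)| := by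
    intro n
    have h1 := hinfl (n + 1) (by omega)
    unfold inflH at h1
    have hne : (inflHSet c β J (n + 1) x).Nonempty := by
      by_contra hcon
      rw [Set.not_nonempty_iff_eq_empty] at hcon
      rw [hcon, Real.sSup_empty] at h1
      linarith
    obtain ⟨t, ⟨L, ω, ω', hL, hLc, hy, ht⟩, hlt⟩ :=
      exists_lt_of_lt_csSup hne (by linarith : a / 2 < _)
    exact ⟨L, ω, ω', hL, hLc, hy, by rw [← ht]; exact hlt⟩
  choose L0 ω ω' hxL0 hLc hagree0 hgap0 using hex
  let L : ℕ → Finset (Site d) := fun n => L0 n ∪ far c x n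
  have hxL : ∀ n, x ∈ L n := fun n => Finset.mem_union_left _ (hxL0 n)
  have hagree : ∀ n, ∀ y, y ∉ L n → dist1 x y < n + 1 → ω n y = ω' n y := fun n y hy =>
    hagree0 n y fun h => hy (Finset.mem_union_left _ h)
  have hgap : ∀ n, a / 2 < |gE β J (L n) (ω n) (ind x) - gE β J (L n) (ω' n) (ind x)| := by
    intro n
    have hna : ∀ u ∈ L0 n, ∀ y ∈ far c x n, ¬ (lat d).Adj u y := fun u hu y hy =>
      not_adj c x u y (hLc n u hu) ((mem_far c x y n).1 hy).2
    rw [decouple β J (L0 n) (far c x n) (ω n) x (hxL0 n) hna,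
      decouple β J (L0 n) (far c x n) (ω' n) x (hxL0 n) hna]
    exact hgap0 n
  let U : Ultrafilter ℕ := Ultrafilter.of atTop
  have hU : (U : Filter ℕ) ≤ atTop := Ultrafilter.of_le _
  obtain ⟨π, hπp, hπc, hπg⟩ := limit_state β J L ω U
  obtain ⟨π', hπp', hπc', hπg'⟩ := limit_state β J L ω' U
  let S : Set (Site d) := {y | ∀ᶠ n in (U : Filter ℕ), y ∈ L n}
  let ζ : Site d → Bool := fun y => if ∀ᶠ n in (U : Filter ℕ), ω n y = true then true else false
  have hnot : ∀ y, y ∉ S → ∀ᶠ n in (U : Filter ℕ), y ∉ L n := by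
    intro y hy
    exact Ultrafilter.eventually_not.2 hy
  have hζ : ∀ y, ∀ᶠ n in (U : Filter ℕ), ω n y = ζ y := by
    intro y
    by_cases h : ∀ᶠ n in (U : Filter ℕ), ω n y = true
    · have : ζ y = true := if_pos h
      rw [this]; exact h
    · have : ζ y = false := if_neg h
      rw [this]
      filter_upwards [Ultrafilter.eventually_not.2 h] with n hn
      simpa using hn
  have hω' : ∀ y, y ∉ S → ∀ᶠ n in (U : Filter ℕ), y ∉ L n ∧ ω' n y = ζ y := by
    intro y hy
    have h3 : ∀ᶠ n in (U : Filter ℕ), dist1 x y < n + 1 := by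
      refine hU ?_
      filter_upwards [eventually_ge_atTop (dist1 x y)] with n hn
      omega
    filter_upwards [hnot y hy, hζ y, h3] with n h4 h5 h6
    exact ⟨h4, by rw [← hagree n y h4 h6, h5]⟩
  refine ⟨S, ζ, π, π', ?_, ?_, ⟨hπp, ?_, ?_⟩, ⟨hπp', ?_, ?_⟩, ?_⟩
  · exact Eventually.of_forall hxL
  · intro y hy
    refine hU ?_
    filter_upwards [eventually_ge_atTop (dist1 x y)] with n hn
    refine Finset.mem_union_right _ ((mem_far c x y n).2 ⟨fun i => ?_, hy⟩)
    have h2 : (x i - y i).natAbs ≤ dist1 x y := by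
      unfold dist1
      exact Finset.single_le_sum (f := fun i => (x i - y i).natAbs) (fun _ _ => Nat.zero_le _)
        (Finset.mem_univ i)
    rw [abs_sub_comm, ← Int.natCast_natAbs]
    exact_mod_cast h2.trans hn
  · refine limit_frozen β J L ω U π hπc S ζ fun y hy => ?_
    filter_upwards [hnot y hy, hζ y] with n h4 h5
    exact ⟨h4, h5⟩
  · intro L' hL'
    refine hπg L' ?_
    have : ∀ᶠ n in (U : Filter ℕ), ∀ y ∈ L', y ∈ L n := (Finset.eventually_all L').2 hL'
    filter_upwards [this] with n hn y hy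
    exact hn y hy
  · exact limit_frozen β J L ω' U π' hπc' S ζ hω'
  · intro L' hL'
    refine hπg' L' ?_
    have : ∀ᶠ n in (U : Filter ℕ), ∀ y ∈ L', y ∈ L n := (Finset.eventually_all L').2 hL'
    filter_upwards [this] with n hn y hy
    exact hn y hy
  · intro heq
    have h1 := hπc (ind x) (continuous_ind x)
    have h2 := hπc' (ind x) (continuous_ind x)
    rw [← heq] at h2
    have h3 := (h1.sub h2).abs
    rw [sub_self, abs_zero] at h3
    have h4 : ∀ᶠ n in (U : Filter ℕ),
        |gE β J (L n) (ω n) (ind x) - gE β J (L n) (ω' n) (ind x)| < a / 2 :=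
      h3.eventually (gt_mem_nhds (by linarith))
    obtain ⟨n, hn⟩ := h4.exists
    exact absurd hn (not_lt.2 (hgap n).le)

end Helper74.EAM3
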