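import Pool.Agent.Helper35.EAM.Spec

/-!
# EAM, part FIELD: the spins outside the slab can be frozen so that the field vanishes
-/

set_option autoImplicit false

namespace Helper74.EAM

open Pool.Agent.Helper35.EAM Pool.H47EA

variable {d : ℕ}

/-- The neighbours of a site. -/
def nb (x : Site d) (q : Fin d × Bool) : Site d :=
  Function.update x q.1 (x q.1 + if q.2 then 1 else -1)

lemma nb_inj (x : Site d) : Function.Injective (nb x) := by
  rintro ⟨i, b⟩ ⟨j, c⟩ h
  have hij : i = j := by
    by_contra hij
    have h1 := congrFun h i
    unfold nb at h1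
    simp only at h1
    rw [Function.update_self, Function.update_of_ne hij] at h1
    split at h1 <;> omega
  subst hij
  have h1 := congrFun h i
  unfold nb at h1
  simp only at h1
  rw [Function.update_self, Function.update_self] at h1
  cases b <;> cases c <;> simp at h1 ⊢

lemma nbr_eq (x : Site d) : nbr x = (Finset.univ : Finset (Fin d × Bool)).image (nb x) := by
  classical
  ext z
  constructor
  · intro hz
    unfold nbr at hz
    have h1 : dist1 x z = 1 := (Finset.mem_filter.1 hz).2
    have hex : ∃ i, (x i - z i).natAbs ≠ 0 := by
      by_contra hcon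
      push Not at hcon
      have : dist1 x z = 0 := Finset.sum_eq_zero fun i _ => hcon i
      omega
    obtain ⟨i, hi⟩ := hex
    have h2 : (x i - z i).natAbs + ∑ j ∈ Finset.univ.erase i, (x j - z j).natAbs = 1 := by
      rw [Finset.add_sum_erase Finset.univ (fun j => (x j - z j).natAbs) (Finset.mem_univ i)]
      exact h1
    have h3 : (x i - z i).natAbs = 1 := by omega
    have h4 : ∑ j ∈ Finset.univ.erase i, (x j - z j).natAbs = 0 := by omega
    have h5 : ∀ j, j ≠ i → z j = x j := by
      intro j hj
      have := (Finset.sum_eq_zero_iff.1 h4) j (Finset.mem_erase.2 ⟨hj, Finset.mem_univ _⟩)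
      omega
    rw [Finset.mem_image]
    rcases Int.natAbs_eq (x i - z i) with h6 | h6
    · refine ⟨(i, false), Finset.mem_univ _, ?_⟩
      unfold nb
      funext j
      by_cases hj : j = i
      · subst hj
        simp only [Function.update_self]
        rw [h3] at h6
        simp
        push_cast at h6
        omega
      · rw [Function.update_of_ne hj]
        exact (h5 j hj).symm
    · refine ⟨(i, true), Finset.mem_univ _, ?_⟩
      unfold nb
      funext j
      by_cases hj : j = i
      · subst hj
        simp only [Function.update_self]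
        rw [h3] at h6
        simp
        push_cast at h6
        omega
      · rw [Function.update_of_ne hj]
        exact (h5 j hj).symm
  · intro hz
    rw [Finset.mem_image] at hz
    obtain ⟨⟨i, b⟩, -, rfl⟩ := hz
    rw [show nb x (i, b) ∈ nbr x ↔ dist1 x (nb x (i, b)) = 1 from Basic.mem_nbr]
    unfold dist1
    rw [Finset.sum_eq_single i]
    · unfold nb
      simp only [Function.update_self]
      cases b <;> simp
    · intro j _ hj
      unfold nb
      simp only [Function.update_of_ne hj, sub_self, Int.natAbs_zero]
    · intro h; exact absurd (Finset.mem_univ _) h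

/-- The projection to the slab. -/
def proj (k : ℕ) (y : Site d) : Site d := fun i => if 2 * k ≤ i.val then 0 else y i

lemma Jc_sq (J : Coupling d) {x y : Site d} (h : y ∈ nbr x) : Jc J x y = 1 ∨ Jc J x y = -1 := by
  have h1 : (lat d).Adj x y := Basic.mem_nbr.1 h
  unfold Jc
  rw [dif_pos h1]
  unfold sg
  split <;> simp

/-- A sum of signs. -/
lemma sum_sign {T : Type} [DecidableEq T] (S : Finset T) (f : T → ℝ) (hf : ∀ y ∈ S, f y = 1 ∨ f y = -1) :
    ∑ y ∈ S, f y = 2 * ((S.filter fun y => f y = 1).card : ℝ) - S.card := by
  classical
  have h : ∀ y ∈ S, f y = 2 * (if f y = 1 then (1 : ℝ) else 0) - 1 := by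
    intro y hy
    rcases hf y hy with h | h
    · rw [if_pos h, h]; norm_num
    · rw [h]; norm_num
  rw [Finset.sum_congr rfl h, Finset.sum_sub_distrib, ← Finset.mul_sum, Finset.sum_boole]
  simp

theorem field_local (k : ℕ) (J : Coupling d) (A : Finset (Site d)) (hkd : 4 * k ≤ d)
    (hA : ∀ x ∈ A, ∀ i : Fin d, 2 * k ≤ i.val → x i = 0) (x : Site d) (hx : x ∈ A)
    (hev : Even (nbr x ∩ A).card) :
    ∃ W : Site d → Bool, ∑ y ∈ nbr x \ A, Jc J x y * sg (if proj k y = y then true else W y) = 0 := by
  classical
  -- off slab neighbours
  set O := (nbr x \ A).filter fun y => proj k y ≠ y with hO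
  set Sx := (nbr x \ A).filter fun y => proj k y = y with hS
  have hcard : (nbr x).card = 2 * d := by
    rw [nbr_eq, Finset.card_image_of_injective _ (nb_inj x)]
    simp [mul_comm]
  have hOS : Sx.card + O.card = (nbr x \ A).card := by
    rw [hO, hS]
    exact Finset.card_filter_add_card_filter_not _
  have hsd : (nbr x \ A).card + (nbr x ∩ A).card = 2 * d := by
    rw [← hcard]; exact Finset.card_sdiff_add_card_inter _ _
  have hx0 : ∀ i : Fin d, 2 * k ≤ i.val → x i = 0 := hA x hx
  have hprojnb : ∀ i b, proj k (nb x (i, b)) = nb x (i, b) ↔ i.val < 2 * k := by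
    intro i b
    constructor
    · intro h
      by_contra hi
      rw [not_lt] at hi
      have h1 := congrFun h i
      unfold proj nb at h1
      simp only [hi, if_true, Function.update_self, hx0 i hi] at h1
      cases b <;> simp at h1
    · intro hi
      funext j
      unfold proj
      by_cases hj : 2 * k ≤ j.val
      · rw [if_pos hj]
        unfold nb
        have hji : j ≠ i := by rintro rfl; omega
        simp only [Function.update_of_ne hji, hx0 j hj]
      · rw [if_neg hj]
  have hScard : Sx.card ≤ 4 * k := by
    have hsub : Sx ⊆ ((Finset.univ.filter fun i : Fin d => i.val < 2 * k) ×ˢ (Finset.univ : Finset Bool)).image (nb x) := by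
      intro y hy
      rw [hS, Finset.mem_filter, Finset.mem_sdiff, nbr_eq, Finset.mem_image] at hy
      obtain ⟨⟨⟨⟨i, b⟩, -, rfl⟩, -⟩, hp⟩ := hy
      rw [hprojnb] at hp
      refine Finset.mem_image_of_mem _ ?_
      simp [hp]
    refine (Finset.card_le_card hsub).trans (Finset.card_image_le.trans ?_)
    rw [Finset.card_product]
    have : (Finset.univ.filter fun i : Fin d => i.val < 2 * k).card ≤ 2 * k := by
      have h1 : (Finset.univ.filter fun i : Fin d => i.val < 2 * k).card ≤ (Finset.range (2 * k)).card := by
        refine Finset.card_le_card_of_injOn (fun i => i.val) ?_ ?_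
        · intro i hi
          simpa using hi
        · intro i _ j _ h
          exact Fin.ext h
      simpa using h1
    simp only [Finset.card_univ, Fintype.card_bool]
    omega
  have hOcard : 4 * k ≤ O.card := by
    have hsub : ((Finset.univ.filter fun i : Fin d => 2 * k ≤ i.val) ×ˢ (Finset.univ : Finset Bool)).image (nb x) ⊆ O := by
      intro y hy
      rw [Finset.mem_image] at hy
      obtain ⟨⟨i, b⟩, hi, rfl⟩ := hy
      have hi' : 2 * k ≤ i.val := by simpa using hi
      rw [hO, Finset.mem_filter, Finset.mem_sdiff]
      refine ⟨⟨?_, ?_⟩, ?_⟩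
      · rw [nbr_eq]; exact Finset.mem_image_of_mem _ (Finset.mem_univ _)
      · intro hcon
        have h1 := hA _ hcon i hi'
        unfold nb at h1
        simp only [Function.update_self, hx0 i hi'] at h1
        cases b <;> simp at h1
      · rw [Ne, hprojnb]; omega
    refine le_trans ?_ (Finset.card_le_card hsub)
    rw [Finset.card_image_of_injective _ (nb_inj x), Finset.card_product]
    have h1 : (Finset.univ.filter fun i : Fin d => 2 * k ≤ i.val).card = d - 2 * k := by
      have h2 := Finset.card_filter_add_card_filter_not (s := (Finset.univ : Finset (Fin d))) (fun i : Fin d => 2 * k ≤ i.val)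
      have h3 : (Finset.univ.filter fun i : Fin d => ¬ 2 * k ≤ i.val).card = 2 * k := by
        have h4 : (Finset.univ.filter fun i : Fin d => ¬ 2 * k ≤ i.val).card = (Finset.range (2 * k)).card := by
          refine Finset.card_bij (fun i _ => i.val) ?_ ?_ ?_
          · intro i hi
            simpa using hi
          · intro i _ j _ h
            exact Fin.ext h
          · intro b hb
            rw [Finset.mem_range] at hb
            exact ⟨⟨b, by omega⟩, by simpa using hb, rfl⟩
        simpa using h4
      simp only [Finset.card_univ, Fintype.card_fin] at h2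
      omega
    rw [h1]
    simp only [Finset.card_univ, Fintype.card_bool]
    omega
  set p := (Sx.filter fun y => Jc J x y = 1).card with hp
  have hpS : p ≤ Sx.card := Finset.card_filter_le _ _
  obtain ⟨h, hh⟩ : Even (nbr x \ A).card := by
    obtain ⟨c, hc⟩ := hev
    exact ⟨d - c, by omega⟩
  have hT : h - p ≤ O.card := by omega
  obtain ⟨T, hTO, hTcard⟩ := Finset.exists_subset_card_eq hT
  refine ⟨fun y => if (y ∈ T) then (if Jc J x y = 1 then true else false) else
    (if Jc J x y = 1 then false else true), ?_⟩
  rw [← Finset.sum_filter_add_sum_filter_not (nbr x \ A) (fun y => proj k y = y)]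
  have e1 : ∑ y ∈ (nbr x \ A).filter (fun y => proj k y = y), Jc J x y * sg (if proj k y = y then true else
      (fun y => if (y ∈ T) then (if Jc J x y = 1 then true else false) else
    (if Jc J x y = 1 then false else true)) y) = 2 * (p : ℝ) - Sx.card := by
    have : ∀ y ∈ (nbr x \ A).filter (fun y => proj k y = y), Jc J x y * sg (if proj k y = y then true else
      (fun y => if (y ∈ T) then (if Jc J x y = 1 then true else false) else
    (if Jc J x y = 1 then false else true)) y) = Jc J x y := by
      intro y hy
      rw [Finset.mem_filter] at hy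
      rw [if_pos hy.2]
      simp [sg]
    rw [Finset.sum_congr rfl this]
    refine sum_sign _ _ ?_
    intro y hy
    rw [Finset.mem_filter, Finset.mem_sdiff] at hy
    exact Jc_sq J hy.1.1
  have e2 : ∑ y ∈ (nbr x \ A).filter (fun y => ¬ proj k y = y), Jc J x y * sg (if proj k y = y then true else
      (fun y => if (y ∈ T) then (if Jc J x y = 1 then true else false) else
    (if Jc J x y = 1 then false else true)) y) = 2 * (T.card : ℝ) - O.card := by
    have h3 : ∀ y ∈ (nbr x \ A).filter (fun y => ¬ proj k y = y), Jc J x y * sg (if proj k y = y then true else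
      (fun y => if (y ∈ T) then (if Jc J x y = 1 then true else false) else
    (if Jc J x y = 1 then false else true)) y) = if y ∈ T then 1 else -1 := by
      intro y hy
      rw [Finset.mem_filter, Finset.mem_sdiff] at hy
      rw [if_neg hy.2]
      rcases Jc_sq J hy.1.1 with h4 | h4
      · by_cases hyT : y ∈ T
        · simp [h4, hyT, sg]
        · simp [h4, hyT, sg]
      · have h5 : ¬ ((-1 : ℝ) = 1) := by norm_num
        by_cases hyT : y ∈ T
        · simp [h4, hyT, sg, h5]
        · simp [h4, hyT, sg, h5]
    rw [Finset.sum_congr rfl h3]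
    have h6 := sum_sign O (fun y => if y ∈ T then (1 : ℝ) else -1) (by
      intro y _
      by_cases hyT : y ∈ T
      · left; simp [hyT]
      · right; simp [hyT])
    have h7 : (O.filter fun y => (if y ∈ T then (1 : ℝ) else -1) = 1) = T := by
      ext y
      rw [Finset.mem_filter]
      constructor
      · rintro ⟨-, h8⟩
        by_contra hyT
        rw [if_neg hyT] at h8
        norm_num at h8
      · intro hyT
        exact ⟨hTO hyT, by simp [hyT]⟩
    rw [h7] at h6
    exact h6
  rw [e1, e2, hTcard]
  have e3 : (Sx.card : ℝ) + O.card = 2 * h := by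
    have : Sx.card + O.card = 2 * h := by omega
    exact_mod_cast this
  have e4 : ((h - p : ℕ) : ℝ) = h - p := by
    rw [Nat.cast_sub]
    omega
  rw [e4]
  linarith

theorem t_FIELD : S_FIELD := by
  classical
  intro k d J A L hkd hA hLA hev
  have key : ∀ x : Site d, ∃ W : Site d → Bool, x ∈ L →
      ∑ y ∈ nbr x \ A, Jc J x y * sg (if proj k y = y then true else W y) = 0 := by
    intro x
    by_cases hx : x ∈ L
    · obtain ⟨W, hW⟩ := field_local k J A hkd hA x (hLA hx) (hev x hx)
      exact ⟨W, fun _ => hW⟩
    · exact ⟨fun _ => true, fun h => absurd h hx⟩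
  choose W hW using key
  refine ⟨fun y => if proj k y = y then true else W (proj k y) y, ?_⟩
  intro x hx
  rw [← hW x hx]
  refine Finset.sum_congr rfl fun y hy => ?_
  rw [Finset.mem_sdiff, nbr_eq, Finset.mem_image] at hy
  obtain ⟨⟨⟨i, b⟩, -, rfl⟩, -⟩ := hy
  by_cases hp : proj k (nb x (i, b)) = nb x (i, b)
  · simp only [hp, if_true]
  · have hpx : proj k (nb x (i, b)) = x := by
      have hi : 2 * k ≤ i.val := by
        by_contra hi
        apply hp
        funext j
        unfold proj
        by_cases hj : 2 * k ≤ j.val
        · rw [if_pos hj]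
          unfold nb
          have hji : j ≠ i := by rintro rfl; omega
          simp only [Function.update_of_ne hji, hA x (hLA hx) j hj]
        · rw [if_neg hj]
      funext j
      unfold proj
      by_cases hj : 2 * k ≤ j.val
      · rw [if_pos hj, hA x (hLA hx) j hj]
      · rw [if_neg hj]
        unfold nb
        have hji : j ≠ i := by rintro rfl; omega
        simp only [Function.update_of_ne hji]
    simp only [hp, if_false, hpx]

end Helper74.EAM
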