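import Pool.Agent.Helper35.EAM.Spec

/-!
# EAM, part PAR: parameters
-/

set_option autoImplicit false

namespace Helper74.EAM

open Pool.Agent.Helper35.EAM

lemma tanh_eq (x : ℝ) : Real.tanh x * (Real.exp (2 * x) + 1) = Real.exp (2 * x) - 1 := by
  have h : Real.exp x * Real.exp (-x) = 1 := by rw [← Real.exp_add]; simp
  have h2 : Real.exp (2 * x) = Real.exp x * Real.exp x := by rw [← Real.exp_add]; ring_nf
  rw [Real.tanh_eq_sinh_div_cosh, Real.sinh_eq, Real.cosh_eq, h2]
  have hp := Real.exp_pos x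
  have hn := Real.exp_pos (-x)
  have hne : (Real.exp x + Real.exp (-x)) / 2 ≠ 0 := by positivity
  rw [div_mul_eq_mul_div, div_eq_iff hne]
  nlinarith

lemma tanh_ge (x : ℝ) (hx : 0 < x) : x / (1 + x) ≤ Real.tanh x := by
  have h := tanh_eq x
  have h1 := Real.add_one_le_exp (2 * x)
  have h2 : 0 < 1 + x := by linarith
  rw [div_le_iff₀ h2]
  have h3 : 0 < Real.exp (2 * x) + 1 := by positivity
  by_contra hcon
  rw [not_le] at hcon
  have h4 : Real.tanh x * (1 + x) * (Real.exp (2 * x) + 1) < x * (Real.exp (2 * x) + 1) :=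
    mul_lt_mul_of_pos_right hcon h3
  nlinarith

theorem t_PAR : S_PAR := by
  intro d β hd hβ
  have hd' : (64 : ℝ) ≤ d := by exact_mod_cast hd
  have hs0 : 0 < √(d : ℝ) := Real.sqrt_pos.2 (by linarith)
  have hsq : √(d : ℝ) * √(d : ℝ) = d := Real.mul_self_sqrt (by linarith)
  set s := √(d : ℝ) with hs
  by_cases hlt : d ≤ 191
  · refine ⟨1, le_refl _, by omega, ?_⟩
    have hd2 : (d : ℝ) ≤ 191 := by exact_mod_cast hlt
    have hs1 : s ≤ 13.9 := by nlinarith
    have h1 : 1.43 ≤ β := by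
      refine le_trans ?_ hβ
      rw [le_div_iff₀ hs0]
      nlinarith
    have h2 : 9 ≤ Real.exp (2 * β) := by
      have h3 : Real.exp (2 * β) = Real.exp β * Real.exp β := by rw [← Real.exp_add]; ring_nf
      have h4 : 3 ≤ Real.exp β := by
        have h5 : 1 + β + β ^ 2 / 2 ≤ Real.exp β := Real.quadratic_le_exp_of_nonneg (by linarith)
        nlinarith
      rw [h3]
      nlinarith
    have h6 : 0.8 ≤ Real.tanh β := by
      have h7 := tanh_eq β
      by_contra hcon
      rw [not_le] at hcon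
      nlinarith
    have : (0.8 : ℝ) ^ 2 ≤ Real.tanh β ^ 2 := pow_le_pow_left₀ (by norm_num) h6 2
    norm_num at this ⊢
    linarith
  · rw [not_le] at hlt
    refine ⟨d / 64, by omega, by omega, ?_⟩
    have hr : (d : ℝ) - 63 ≤ 64 * ((d / 64 : ℕ) : ℝ) := by
      have : d ≤ 64 * (d / 64) + 63 := by omega
      have h' : (d : ℝ) ≤ 64 * ((d / 64 : ℕ) : ℝ) + 63 := by exact_mod_cast this
      linarith
    have hd2 : (192 : ℝ) ≤ d := by exact_mod_cast hlt
    have hs1 : 13.8 ≤ s := by nlinarith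
    have hx : 0 < 20 / s := by positivity
    have hβ0 : 0 < β := lt_of_lt_of_le hx hβ
    have h1 : 20 / (s + 20) ≤ Real.tanh β := by
      refine le_trans ?_ (tanh_ge β hβ0)
      rw [div_le_div_iff₀ (by positivity) (by positivity)]
      rw [div_le_iff₀ hs0] at hβ
      nlinarith
    have h2 : (20 / (s + 20)) ^ 2 ≤ Real.tanh β ^ 2 := pow_le_pow_left₀ (by positivity) h1 2
    have h3 : (5 : ℝ) ≤ 8 * ((d / 64 : ℕ) : ℝ) * (20 / (s + 20)) ^ 2 := by
      rw [div_pow, ← mul_div_assoc, le_div_iff₀ (by positivity)]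
      nlinarith
    refine le_trans h3 ?_
    exact mul_le_mul_of_nonneg_left h2 (by positivity)

end Helper74.EAM
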